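import Pool.Agent.Helper49.LT.StA

/-!
# Project LT, module GEO: the hexagon inequality integrated against a weight
-/

open MeasureTheory Set Filter Metric

namespace Pool.Agent.Helper63.LT

open Helper49.LT Helper97.CB

theorem ee_half_sub (u : ℝ) : ee (Real.pi / 2 - u) = Complex.I * (starRingEnd ℂ) (ee u) := by
  apply Complex.ext
  · simp [ee_re, ee_im, Real.cos_pi_div_two_sub]
  · simp [ee_re, ee_im, Real.sin_pi_div_two_sub]

theorem ee_add_pi (u : ℝ) : ee (u + Real.pi) = -ee u := by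
  rw [ee_add, ee_pi]; ring

theorem sqrt3_lt : Real.sqrt 3 < 19 / 10 := by
  rw [Real.sqrt_lt' (by norm_num)]; norm_num

theorem sqrt3_pos : 0 < Real.sqrt 3 := Real.sqrt_pos.2 (by norm_num)

/-- the pointwise inequality -/
theorem point (hW : StWid) (hA : StHexA) (hR : StRot) (K : Set ℂ) (μ : ℝ) (hK : IsBody K)
    (hin : closedBall 0 (99 / 100) ⊆ K) (hS : Small K (2 * (m0 * (1 + μ)) * area K))
    (u c c' : ℝ) (p q : ℂ) (hp : p ∈ K) (hq : q ∈ K) (hc : Chord K u c)
    (hc' : Chord K (u + Real.pi) c') :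
    (p * (starRingEnd ℂ) (ee u)).re + c + (q * (starRingEnd ℂ) (ee (u + Real.pi))).re + c' ≤
      3 / Real.pi * (1 + μ) * area K := by
  set v : ℂ := ee (Real.pi / 2 - u) with hv
  have hvn : ‖v‖ = 1 := norm_ee _
  have hv' : v = Complex.I * (starRingEnd ℂ) (ee u) := ee_half_sub u
  have hvu : v * ee u = Complex.I := by
    rw [hv', mul_assoc, ee_conj_mul, mul_one]
  have hvu' : v * ee (u + Real.pi) = -Complex.I := by
    rw [ee_add_pi, mul_neg, hvu]
  obtain ⟨hB, hAr, hSm⟩ := hR K v hvn hK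
  set K' : Set ℂ := (fun z => v * z) '' K with hK'
  have hmem : ∀ z ∈ K, v * z ∈ K' := fun z hz => ⟨z, hz, rfl⟩
  obtain ⟨hc0, hw0, -, -, -, hemp, him⟩ := hW K' hB
  -- the longest horizontal chord
  have hball : closedBall (0 : ℂ) (99 / 100) ⊆ K' := by
    intro z hz
    refine ⟨(starRingEnd ℂ) v * z, hin ?_, ?_⟩
    · rw [mem_closedBall_zero_iff] at hz ⊢
      rw [norm_mul, RCLike.norm_conj, hvn, one_mul]; exact hz
    · show v * ((starRingEnd ℂ) v * z) = z
      rw [← mul_assoc, hv, ee_mul_conj, one_mul]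
  have hcm : 19 / 10 ≤ cmax K' := by
    by_contra hcon
    push Not at hcon
    have h1 := hemp _ hcon
    have h2 : ((-(19 / 20) : ℝ) : ℂ) ∈ Sh K' (19 / 10) := by
      constructor
      · apply hball
        rw [mem_closedBall_zero_iff, Complex.norm_real, Real.norm_eq_abs]
        rw [abs_le]; constructor <;> norm_num
      · apply hball
        rw [mem_closedBall_zero_iff, ← Complex.ofReal_add, Complex.norm_real, Real.norm_eq_abs]
        rw [abs_le]; constructor <;> norm_num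
    rw [h1] at h2
    exact h2
  have hs : Real.sqrt 3 ∈ Ioo 0 (cmax K') := ⟨sqrt3_pos, lt_of_lt_of_le sqrt3_lt hcm⟩
  obtain ⟨P, a, b, γ, φ, cc, f, hHex, hEq⟩ := hA K' hB _ hs
  have hlt := hSm _ hS P a b γ φ cc f hHex
  rw [hEq] at hlt
  have hwsum : wid K' 0 + wid K' (Real.sqrt 3) < 3 / Real.pi * (1 + μ) * area K := by
    have h3 : 2 * (m0 * (1 + μ)) * area K =
        Real.sqrt 3 * (3 / Real.pi * (1 + μ) * area K) := by
      unfold m0
      field_simp
    rw [h3] at hlt
    exact lt_of_mul_lt_mul_left hlt sqrt3_pos.le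
  -- the width
  have him1 : (v * p).im - (v * q).im ≤ wid K' 0 := him _ (hmem p hp) _ (hmem q hq)
  have e1 : (v * p).im = (p * (starRingEnd ℂ) (ee u)).re := by
    rw [hv']; simp [ee_re, ee_im]; ring
  have e2 : (v * q).im = -(q * (starRingEnd ℂ) (ee (u + Real.pi))).re := by
    rw [hv', ee_add_pi]; simp [ee_re, ee_im]; ring
  -- the chord
  have hbdd : Bornology.IsBounded (Complex.im '' Sh K' (Real.sqrt 3)) := by
    have h1 : Bornology.IsBounded (Sh K' (Real.sqrt 3)) :=
      hB.2.1.isBounded.subset (fun z hz => hz.1)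
    obtain ⟨R, hR'⟩ := h1.exists_norm_le
    rw [isBounded_iff_forall_norm_le]
    refine ⟨R, ?_⟩
    rintro _ ⟨z, hz, rfl⟩
    exact (Complex.abs_im_le_norm z).trans (hR' z hz)
  have hU : c ≤ sSup (Complex.im '' Sh K' (Real.sqrt 3)) := by
    obtain ⟨y, h1, h2⟩ := hc
    apply le_csSup hbdd.bddAbove
    refine ⟨v * (ee u * ((c : ℂ) + ((y + Real.sqrt 3 : ℝ) : ℂ) * Complex.I)), ⟨hmem _ h2, ?_⟩, ?_⟩
    · have h3 := hmem _ h1
      have e : v * (ee u * ((c : ℂ) + ((y + Real.sqrt 3 : ℝ) : ℂ) * Complex.I)) +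
          ((Real.sqrt 3 : ℝ) : ℂ) = v * (ee u * ((c : ℂ) + (y : ℂ) * Complex.I)) := by
        rw [← mul_assoc, ← mul_assoc, hvu]
        push_cast
        linear_combination (((Real.sqrt 3 : ℝ) : ℂ)) * Complex.I_mul_I
      rw [e]; exact h3
    · rw [← mul_assoc, hvu]; simp
  have hL : sInf (Complex.im '' Sh K' (Real.sqrt 3)) ≤ -c' := by
    obtain ⟨y, h1, h2⟩ := hc'
    apply csInf_le hbdd.bddBelow
    refine ⟨v * (ee (u + Real.pi) * ((c' : ℂ) + (y : ℂ) * Complex.I)), ⟨hmem _ h1, ?_⟩, ?_⟩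
    · have h3 := hmem _ h2
      have e : v * (ee (u + Real.pi) * ((c' : ℂ) + (y : ℂ) * Complex.I)) +
          ((Real.sqrt 3 : ℝ) : ℂ) =
          v * (ee (u + Real.pi) * ((c' : ℂ) + ((y + Real.sqrt 3 : ℝ) : ℂ) * Complex.I)) := by
        rw [← mul_assoc, ← mul_assoc, hvu']
        push_cast
        linear_combination (((Real.sqrt 3 : ℝ) : ℂ)) * Complex.I_mul_I
      rw [e]; exact h3
    · rw [← mul_assoc, hvu']; simp
  have hwid : c + c' ≤ wid K' (Real.sqrt 3) := by
    unfold wid; linarith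
  rw [e1, e2] at him1
  linarith

theorem hGEO (hW : StWid) (hA : StHexA) (hR : StRot) : StGeo := by
  intro K μ H C W hK hin hS hHc hCc hWc hHp hCp hW0 hWp hH hC
  set π := Real.pi with hpi
  -- pointwise
  have hpt : ∀ u, H u + C u + (H (u + π) + C (u + π)) ≤ 3 / π * (1 + μ) * area K := by
    intro u
    obtain ⟨p, hp, hp2⟩ := hH u
    obtain ⟨q, hq, hq2⟩ := hH (u + π)
    obtain ⟨c, hc1, hc2⟩ := hC u
    obtain ⟨c', hc1', hc2'⟩ := hC (u + π)
    have := point hW hA hR K μ hK hin hS u c c' p q hp hq hc2 hc2'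
    linarith
  have hW2 : ∀ u, W (u + 2 * π) = W u := by
    intro u
    have : u + 2 * π = (u + π) + π := by ring
    rw [this, hWp, hWp]
  set F : ℝ → ℝ := fun u => (H u + C u) * W u with hF
  have hFc : Continuous F := by rw [hF]; fun_prop
  have hFp : ∀ u, F (u + 2 * π) = F u := by
    intro u; simp only [hF]; rw [hHp, hCp, hW2]
  have hsh := integral_shift F hFp π
  have hFc2 : Continuous (fun u => F (u + π)) := by fun_prop
  have hadd : (∫ u in (0 : ℝ)..(2 * π), F u) + (∫ u in (0 : ℝ)..(2 * π), F (u + π)) =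
      ∫ u in (0 : ℝ)..(2 * π), (F u + F (u + π)) := by
    rw [intervalIntegral.integral_add (hFc.intervalIntegrable _ _) (hFc2.intervalIntegrable _ _)]
  have hle : ∫ u in (0 : ℝ)..(2 * π), (F u + F (u + π)) ≤
      ∫ u in (0 : ℝ)..(2 * π), (3 / π * (1 + μ) * area K) * W u := by
    apply intervalIntegral.integral_mono_on (by positivity)
    · exact ((hFc.add hFc2)).intervalIntegrable _ _
    · exact (continuous_const.mul hWc).intervalIntegrable _ _
    · intro u _
      simp only [hF]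
      rw [hWp]
      have h1 := mul_le_mul_of_nonneg_right (hpt u) (hW0 u)
      linarith
  rw [intervalIntegral.integral_const_mul] at hle
  rw [← hadd, hsh] at hle
  have hgoal : ∫ u in (0 : ℝ)..(2 * π), F u ≤
      3 / (2 * π) * (1 + μ) * area K * ∫ u in (0 : ℝ)..(2 * π), W u := by
    have e : 3 / (2 * π) * (1 + μ) * area K * ∫ u in (0 : ℝ)..(2 * π), W u =
        (3 / π * (1 + μ) * area K * ∫ u in (0 : ℝ)..(2 * π), W u) / 2 := by
      have : π ≠ 0 := Real.pi_ne_zero
      field_simp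
    rw [e]
    linarith
  exact hgoal

end Pool.Agent.Helper63.LT
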