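import Pool.Agent.Helper49.LT.StC

/-!
# Project LT, module SMM: the moments control the Fourier coefficients 1, 2, 3, 5
-/

open MeasureTheory Set Filter Metric

namespace Pool.Agent.Helper63.LT

open Helper49.LT Helper97.CB

/-- the integral of `ee (m t)` -/
noncomputable def dl (m : ℤ) : ℂ := if m = 0 then ((2 * Real.pi : ℝ) : ℂ) else 0

theorem int_ee (m : ℤ) : ∫ t in (0 : ℝ)..(2 * Real.pi), ee ((m : ℝ) * t) = dl m := by
  unfold dl
  split_ifs with h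
  · subst h
    simp [ee_zero]
  · have h1 : ∫ t in (0 : ℝ)..(2 * Real.pi), ((m : ℝ) : ℂ) * Complex.I * ee ((m : ℝ) * t) =
        ee ((m : ℝ) * (2 * Real.pi)) - ee ((m : ℝ) * 0) := by
      apply intervalIntegral.integral_eq_sub_of_hasDerivAt
        (f := fun s : ℝ => ee ((m : ℝ) * s))
      · intro t _; exact hasDerivAt_ee _ t
      · apply Continuous.intervalIntegrable
        have := continuous_ee
        fun_prop
    have h2 : ee ((m : ℝ) * (2 * Real.pi)) = ee ((m : ℝ) * 0) := by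
      have := ee_int m 0
      rwa [zero_add] at this
    rw [h2, sub_self, intervalIntegral.integral_const_mul] at h1
    have h3 : ((m : ℝ) : ℂ) * Complex.I ≠ 0 := by
      apply mul_ne_zero
      · exact_mod_cast h
      · exact Complex.I_ne_zero
    exact (mul_eq_zero.1 h1).resolve_left h3

theorem int_sum (l : List (ℂ × ℤ)) :
    ∫ t in (0 : ℝ)..(2 * Real.pi), (l.map (fun p => p.1 * ee ((p.2 : ℝ) * t))).sum =
      (l.map (fun p => p.1 * dl p.2)).sum := by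
  have hc : ∀ l : List (ℂ × ℤ),
      Continuous (fun t : ℝ => (l.map (fun p => p.1 * ee ((p.2 : ℝ) * t))).sum) := by
    intro l
    induction l with
    | nil => simpa using continuous_const
    | cons p l ih =>
      simp only [List.map_cons, List.sum_cons]
      have := continuous_ee
      apply Continuous.add _ ih
      fun_prop
  induction l with
  | nil => simp
  | cons p l ih =>
    simp only [List.map_cons, List.sum_cons]
    rw [intervalIntegral.integral_add, ih, intervalIntegral.integral_const_mul, int_ee]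
    · apply Continuous.intervalIntegrable
      have := continuous_ee
      fun_prop
    · exact (hc l).intervalIntegrable _ _

/-- linear part of `h0` -/
noncomputable def ll (v : ℂ × ℂ) : ℂ :=
  -(v.1 + (starRingEnd ℂ) v.1) / 2 - 3 * (v.2 + (starRingEnd ℂ) v.2) / 2

/-- quadratic part of `h0` -/
noncomputable def qq (v : ℂ × ℂ) : ℂ :=
  -2 * (v.1 * (starRingEnd ℂ) v.1) - 4 * (v.2 * (starRingEnd ℂ) v.2)
    - 3 * ((starRingEnd ℂ) v.1 * v.2 + v.1 * (starRingEnd ℂ) v.2)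

theorem h0_eq (v : ℂ × ℂ) : (h0 v : ℂ) = 1 + ll v + qq v := by
  obtain ⟨⟨a, b⟩, ⟨c, d⟩⟩ := v
  apply Complex.ext
  · simp [h0, ll, qq, k3, s3, k5, s5, Complex.div_ofNat_re, pow_two]
    ring
  · simp [h0, ll, qq, k3, s3, k5, s5, Complex.div_ofNat_im, pow_two]
    ring

theorem norm_ll (v : ℂ × ℂ) : ‖ll v‖ ≤ 4 * ‖v‖ := by
  have a := fst_le v
  have b := snd_le v
  have h1 : ‖v.1 + (starRingEnd ℂ) v.1‖ ≤ 2 * ‖v‖ := by
    refine (norm_add_le _ _).trans ?_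
    rw [RCLike.norm_conj]; linarith
  have h2 : ‖v.2 + (starRingEnd ℂ) v.2‖ ≤ 2 * ‖v‖ := by
    refine (norm_add_le _ _).trans ?_
    rw [RCLike.norm_conj]; linarith
  unfold ll
  refine (norm_sub_le _ _).trans ?_
  rw [norm_div, norm_neg, norm_div, norm_mul]
  simp only [Complex.norm_ofNat]
  linarith

theorem norm_qq (v : ℂ × ℂ) : ‖qq v‖ ≤ 12 * ‖v‖ ^ 2 := by
  have a := fst_le v
  have b := snd_le v
  have n1 := norm_nonneg v.1
  have n2 := norm_nonneg v.2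
  have m1 : ‖v.1‖ * ‖v.1‖ ≤ ‖v‖ ^ 2 := by nlinarith
  have m2 : ‖v.2‖ * ‖v.2‖ ≤ ‖v‖ ^ 2 := by nlinarith
  have m3 : ‖v.1‖ * ‖v.2‖ ≤ ‖v‖ ^ 2 := by nlinarith
  unfold qq
  refine (norm_sub_le _ _).trans ?_
  have h1 : ‖-2 * (v.1 * (starRingEnd ℂ) v.1) - 4 * (v.2 * (starRingEnd ℂ) v.2)‖ ≤
      6 * ‖v‖ ^ 2 := by
    refine (norm_sub_le _ _).trans ?_
    simp only [norm_mul, norm_neg, Complex.norm_ofNat, RCLike.norm_conj]
    linarith
  have h2 : ‖3 * ((starRingEnd ℂ) v.1 * v.2 + v.1 * (starRingEnd ℂ) v.2)‖ ≤ 6 * ‖v‖ ^ 2 := by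
    rw [norm_mul, Complex.norm_ofNat]
    have h3 : ‖(starRingEnd ℂ) v.1 * v.2 + v.1 * (starRingEnd ℂ) v.2‖ ≤ 2 * ‖v‖ ^ 2 := by
      refine (norm_add_le _ _).trans ?_
      simp only [norm_mul, RCLike.norm_conj]
      linarith
    linarith
  linarith

/-- the part of degree at most 2 of `h0 v (1+v₁+v₂)^j` -/
noncomputable def Pj (j : ℕ) (c : ℂ) (v : ℂ × ℂ) : ℂ :=
  1 + j * (v.1 + v.2) + c * (v.1 + v.2) ^ 2 + ll v + ll v * (j * (v.1 + v.2)) + qq v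

/-- the trigonometric polynomial `ee (j t) * Pj j c (rot t x)` -/
noncomputable def lst (j : ℕ) (c : ℂ) (x : ℂ × ℂ) : List (ℂ × ℤ) :=
  [(1, (j : ℤ)),
   (((j : ℂ) - 1 / 2) * x.1, (j : ℤ) + -3),
   (((j : ℂ) - 3 / 2) * x.2, (j : ℤ) + -5),
   (-(1 / 2) * (starRingEnd ℂ) x.1, (j : ℤ) + 3),
   (-(3 / 2) * (starRingEnd ℂ) x.2, (j : ℤ) + 5),
   ((c - (j : ℂ) / 2) * x.1 ^ 2, (j : ℤ) + -6),
   ((2 * c - 2 * (j : ℂ)) * (x.1 * x.2), (j : ℤ) + -8),
   ((c - 3 * (j : ℂ) / 2) * x.2 ^ 2, (j : ℤ) + -10),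
   ((-(j : ℂ) / 2 - 2) * (x.1 * (starRingEnd ℂ) x.1), (j : ℤ)),
   ((-3 * (j : ℂ) / 2 - 4) * (x.2 * (starRingEnd ℂ) x.2), (j : ℤ)),
   ((-3 * (j : ℂ) / 2 - 3) * (x.1 * (starRingEnd ℂ) x.2), (j : ℤ) + 2),
   ((-(j : ℂ) / 2 - 3) * ((starRingEnd ℂ) x.1 * x.2), (j : ℤ) + -2)]

theorem Pj_lst (j : ℕ) (c : ℂ) (x : ℂ × ℂ) (t : ℝ) :
    ee ((j : ℝ) * t) * Pj j c (rot t x) =
      ((lst j c x).map (fun p => p.1 * ee ((p.2 : ℝ) * t))).sum := by
  have e0 : ee (((j : ℤ) : ℝ) * t) = ee ((j : ℝ) * t) := by push_cast; rfl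
  have e : ∀ k : ℤ, ee ((((j : ℤ) + k : ℤ) : ℝ) * t) = ee ((j : ℝ) * t) * ee ((k : ℝ) * t) := by
    intro k
    rw [← ee_add]; congr 1; push_cast; ring
  have a6 : ee (((-6 : ℤ) : ℝ) * t) = ee (-3 * t) * ee (-3 * t) := by
    rw [← ee_add]; congr 1; push_cast; ring
  have a8 : ee (((-8 : ℤ) : ℝ) * t) = ee (-3 * t) * ee (-5 * t) := by
    rw [← ee_add]; congr 1; push_cast; ring
  have a10 : ee (((-10 : ℤ) : ℝ) * t) = ee (-5 * t) * ee (-5 * t) := by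
    rw [← ee_add]; congr 1; push_cast; ring
  have a2 : ee (((2 : ℤ) : ℝ) * t) = ee (-3 * t) * ee (5 * t) := by
    rw [← ee_add]; congr 1; push_cast; ring
  have am2 : ee (((-2 : ℤ) : ℝ) * t) = ee (3 * t) * ee (-5 * t) := by
    rw [← ee_add]; congr 1; push_cast; ring
  have am3 : ee (((-3 : ℤ) : ℝ) * t) = ee (-3 * t) := by push_cast; rfl
  have am5 : ee (((-5 : ℤ) : ℝ) * t) = ee (-5 * t) := by push_cast; rfl
  have a3 : ee (((3 : ℤ) : ℝ) * t) = ee (3 * t) := by push_cast; rfl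
  have a5 : ee (((5 : ℤ) : ℝ) * t) = ee (5 * t) := by push_cast; rfl
  have c3 : (starRingEnd ℂ) (ee (-3 * t)) = ee (3 * t) := by
    rw [← ee_neg]; congr 1; ring
  have c5 : (starRingEnd ℂ) (ee (-5 * t)) = ee (5 * t) := by
    rw [← ee_neg]; congr 1; ring
  have m3 : ee (-3 * t) * ee (3 * t) = 1 := by
    rw [← ee_add]; rw [show -3 * t + 3 * t = 0 by ring, ee_zero]
  have m5 : ee (-5 * t) * ee (5 * t) = 1 := by
    rw [← ee_add]; rw [show -5 * t + 5 * t = 0 by ring, ee_zero]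
  simp only [lst, List.map_cons, List.map_nil, List.sum_cons, List.sum_nil, e, e0,
    a6, a8, a10, a2, am2, am3, am5, a3, a5]
  simp only [Pj, ll, qq, rot, map_mul, c3, c5]
  linear_combination (ee ((j : ℝ) * t) * ((-(j : ℂ) / 2 - 2) * (x.1 * (starRingEnd ℂ) x.1))) * m3 +
    (ee ((j : ℝ) * t) * ((-3 * (j : ℂ) / 2 - 4) * (x.2 * (starRingEnd ℂ) x.2))) * m5

theorem int_Pj (j : ℕ) (c : ℂ) (x : ℂ × ℂ) :
    ∫ t in (0 : ℝ)..(2 * Real.pi), ee ((j : ℝ) * t) * Pj j c (rot t x) =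
      ((lst j c x).map (fun p => p.1 * dl p.2)).sum := by
  rw [← int_sum]
  congr 1
  funext t
  exact Pj_lst j c x t

/-- the integrand of the moments -/
noncomputable def Zj (x : ℂ × ℂ) (j : ℕ) (t : ℝ) : ℂ := (h0 (rot t x) : ℂ) * zh x t ^ j

theorem Zj_eq (x : ℂ × ℂ) (j : ℕ) (t : ℝ) : Zj x j t =
    ee ((j : ℝ) * t) * ((h0 (rot t x) : ℂ) * (1 + ((rot t x).1 + (rot t x).2)) ^ j) := by
  unfold Zj
  rw [zh_eq, mul_pow]
  have : ee t ^ j = ee ((j : ℝ) * t) := by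
    have := ee_int_mul (j : ℤ) t
    push_cast at this
    rw [this]
    exact (zpow_natCast _ _).symm
  rw [this, ← add_assoc]
  ring

theorem continuous_Zj (x : ℂ × ℂ) (j : ℕ) : Continuous (Zj x j) := by
  unfold Zj
  have h1 := continuous_zh x
  have h2 : Continuous (fun t => h0 (rot t x)) := continuous_h0.comp (continuous_rot x)
  fun_prop

theorem norm_mul_le4 {a b : ℂ} {A B : ℝ} (ha : ‖a‖ ≤ A) (hb : ‖b‖ ≤ B) : ‖a * b‖ ≤ A * B := by
  rw [norm_mul]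
  exact mul_le_mul ha hb (norm_nonneg _) ((norm_nonneg _).trans ha)

/-- the remainder of degree 3 -/
theorem rem_bound (j : ℕ) (c : ℂ) (Q : ℂ → ℂ) (hj : j ≤ 5) (hc : ‖c‖ ≤ 10)
    (hQ : ∀ s, (1 + s) ^ j = 1 + j * s + c * s ^ 2 + s ^ 3 * Q s)
    (hQb : ∀ s, ‖s‖ ≤ 1 → ‖Q s‖ ≤ 16) (v : ℂ × ℂ) (hv : ‖v‖ ≤ 1 / 100) :
    ‖(h0 v : ℂ) * (1 + (v.1 + v.2)) ^ j - Pj j c v‖ ≤ 700 * ‖v‖ ^ 3 := by
  have n0 := norm_nonneg v
  have hs : ‖v.1 + v.2‖ ≤ 2 * ‖v‖ := by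
    refine (norm_add_le _ _).trans ?_
    linarith [fst_le v, snd_le v]
  set s := v.1 + v.2 with hsdef
  have hl := norm_ll v
  have hq := norm_qq v
  have hjn : ‖(j : ℂ)‖ ≤ 5 := by
    rw [Complex.norm_natCast]; exact_mod_cast hj
  have hs1 : ‖s‖ ≤ 1 := by linarith
  have hQs := hQb s hs1
  have e : (h0 v : ℂ) * (1 + s) ^ j - Pj j c v =
      (1 + ll v + qq v) * (s ^ 3 * Q s) + (ll v + qq v) * (c * s ^ 2) + qq v * (j * s) := by
    rw [h0_eq, hQ]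
    unfold Pj
    rw [← hsdef]
    ring
  rw [e]
  have hs2 : ‖s ^ 2‖ ≤ 4 * ‖v‖ ^ 2 := by
    rw [norm_pow]
    calc ‖s‖ ^ 2 ≤ (2 * ‖v‖) ^ 2 := by gcongr
      _ = 4 * ‖v‖ ^ 2 := by ring
  have hs3 : ‖s ^ 3‖ ≤ 8 * ‖v‖ ^ 3 := by
    rw [norm_pow]
    calc ‖s‖ ^ 3 ≤ (2 * ‖v‖) ^ 3 := by gcongr
      _ = 8 * ‖v‖ ^ 3 := by ring
  have h1 : ‖1 + ll v + qq v‖ ≤ 2 := by
    have h2 : ‖1 + ll v + qq v‖ ≤ 1 + ‖ll v‖ + ‖qq v‖ := by
      refine (norm_add_le _ _).trans ?_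
      have := norm_add_le (1 : ℂ) (ll v)
      rw [norm_one] at this
      linarith
    nlinarith
  have h2 : ‖ll v + qq v‖ ≤ 5 * ‖v‖ := by
    refine (norm_add_le _ _).trans ?_
    nlinarith
  have t1 : ‖(1 + ll v + qq v) * (s ^ 3 * Q s)‖ ≤ 2 * (8 * ‖v‖ ^ 3 * 16) :=
    norm_mul_le4 h1 (norm_mul_le4 hs3 hQs)
  have t2 : ‖(ll v + qq v) * (c * s ^ 2)‖ ≤ 5 * ‖v‖ * (10 * (4 * ‖v‖ ^ 2)) :=
    norm_mul_le4 h2 (norm_mul_le4 hc hs2)
  have t3 : ‖qq v * (j * s)‖ ≤ 12 * ‖v‖ ^ 2 * (5 * (2 * ‖v‖)) :=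
    norm_mul_le4 hq (norm_mul_le4 hjn hs)
  have t4 := norm_add_le ((1 + ll v + qq v) * (s ^ 3 * Q s) + (ll v + qq v) * (c * s ^ 2))
    (qq v * (j * s))
  have t5 := norm_add_le ((1 + ll v + qq v) * (s ^ 3 * Q s)) ((ll v + qq v) * (c * s ^ 2))
  have n3 : 0 ≤ ‖v‖ ^ 3 := by positivity
  nlinarith

theorem two_pi_nonneg : (0 : ℝ) ≤ 2 * Real.pi := by positivity

/-- constant bounds -/
theorem int_bound (f : ℝ → ℂ) (B : ℝ) (h : ∀ t, ‖f t‖ ≤ B) :
    ‖∫ t in (0 : ℝ)..(2 * Real.pi), f t‖ ≤ 7 * B := by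
  have hB : 0 ≤ B := (norm_nonneg _).trans (h 0)
  have h1 := intervalIntegral.norm_integral_le_of_norm_le_const (a := 0) (b := 2 * Real.pi)
    (f := f) (C := B) (fun t _ => h t)
  rw [sub_zero, abs_of_nonneg two_pi_nonneg] at h1
  have := Real.pi_lt_d2
  nlinarith

/-- bounds by an integral -/
theorem int_bound2 (f : ℝ → ℂ) (g : ℝ → ℝ) (hg : Continuous g) (h : ∀ t, ‖f t‖ ≤ g t) :
    ‖∫ t in (0 : ℝ)..(2 * Real.pi), f t‖ ≤ ∫ t in (0 : ℝ)..(2 * Real.pi), g t := by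
  apply intervalIntegral.norm_integral_le_of_norm_le two_pi_nonneg
  · exact Filter.Eventually.of_forall (fun t _ => h t)
  · exact hg.intervalIntegrable _ _

theorem continuous_Pj (j : ℕ) (c : ℂ) (x : ℂ × ℂ) :
    Continuous (fun t : ℝ => ee ((j : ℝ) * t) * Pj j c (rot t x)) := by
  have h1 := continuous_rot x
  have h2 := continuous_ee
  have h3 : Continuous (fun v : ℂ × ℂ => Pj j c v) := by
    unfold Pj ll qq
    have := Complex.continuous_conj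
    fun_prop
  have h4 := h3.comp h1
  have h5 : Continuous (fun t : ℝ => ee ((j : ℝ) * t)) := by fun_prop
  exact h5.mul h4

theorem base_bound (j : ℕ) (c : ℂ) (Q : ℂ → ℂ) (hj : j ≤ 5) (hc : ‖c‖ ≤ 10)
    (hQ : ∀ s, (1 + s) ^ j = 1 + j * s + c * s ^ 2 + s ^ 3 * Q s)
    (hQb : ∀ s, ‖s‖ ≤ 1 → ‖Q s‖ ≤ 16) (x : ℂ × ℂ) (hx : ‖x‖ ≤ 1 / 100) :
    ‖(∫ t in (0 : ℝ)..(2 * Real.pi), Zj x j t) -
      ((lst j c x).map (fun p => p.1 * dl p.2)).sum‖ ≤ 4900 * ‖x‖ ^ 3 := by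
  rw [← int_Pj, ← intervalIntegral.integral_sub ((continuous_Zj x j).intervalIntegrable _ _)
    ((continuous_Pj j c x).intervalIntegrable _ _)]
  have h := int_bound (fun t => Zj x j t - ee ((j : ℝ) * t) * Pj j c (rot t x)) (700 * ‖x‖ ^ 3) ?_
  · linarith
  · intro t
    have h1 := rem_bound j c Q hj hc hQ hQb (rot t x) (by rw [norm_rot]; exact hx)
    rw [norm_rot] at h1
    rw [Zj_eq, ← mul_sub, norm_mul, norm_ee, one_mul]
    exact h1

theorem base0 (x : ℂ × ℂ) (hx : ‖x‖ ≤ 1 / 100) :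
    ‖(∫ t in (0 : ℝ)..(2 * Real.pi), Zj x 0 t) - ((2 * Real.pi : ℝ) : ℂ)‖ ≤ 100 * ‖x‖ ^ 2 := by
  have h := base_bound 0 0 (fun _ => 0) (by norm_num) (by simp) (by intro s; simp)
    (by intro s _; simp) x hx
  have n0 := norm_nonneg x
  have a := fst_le x
  have b := snd_le x
  have n1 := norm_nonneg x.1
  have n2 := norm_nonneg x.2
  have e : ((lst 0 0 x).map (fun p => p.1 * dl p.2)).sum = ((2 * Real.pi : ℝ) : ℂ) +
      (-2 * (x.1 * (starRingEnd ℂ) x.1) - 4 * (x.2 * (starRingEnd ℂ) x.2)) *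
        ((2 * Real.pi : ℝ) : ℂ) := by
    simp [lst, dl]; ring
  rw [e] at h
  have h2 : ‖(-2 * (x.1 * (starRingEnd ℂ) x.1) - 4 * (x.2 * (starRingEnd ℂ) x.2)) *
        ((2 * Real.pi : ℝ) : ℂ)‖ ≤ 6 * ‖x‖ ^ 2 * 7 := by
    apply norm_mul_le4
    · refine (norm_sub_le _ _).trans ?_
      simp only [norm_mul, norm_neg, Complex.norm_ofNat, RCLike.norm_conj]
      nlinarith
    · rw [Complex.norm_real, Real.norm_eq_abs, abs_of_nonneg two_pi_nonneg]
      have := Real.pi_lt_d2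
      linarith
  have h3 := norm_add_le ((∫ t in (0 : ℝ)..(2 * Real.pi), Zj x 0 t) - (((2 * Real.pi : ℝ) : ℂ) +
      (-2 * (x.1 * (starRingEnd ℂ) x.1) - 4 * (x.2 * (starRingEnd ℂ) x.2)) *
        ((2 * Real.pi : ℝ) : ℂ)))
    ((-2 * (x.1 * (starRingEnd ℂ) x.1) - 4 * (x.2 * (starRingEnd ℂ) x.2)) *
        ((2 * Real.pi : ℝ) : ℂ))
  rw [sub_add_eq_sub_sub, sub_add_cancel] at h3
  rw [sub_add_eq_sub_sub] at h
  have h4 : 4900 * ‖x‖ ^ 3 ≤ 49 * ‖x‖ ^ 2 := by nlinarith [sq_nonneg ‖x‖]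
  have h5 := sq_nonneg ‖x‖
  linarith

theorem base1 (x : ℂ × ℂ) (hx : ‖x‖ ≤ 1 / 100) :
    ‖(∫ t in (0 : ℝ)..(2 * Real.pi), Zj x 1 t)‖ ≤ 4900 * ‖x‖ ^ 3 := by
  have h := base_bound 1 0 (fun _ => 0) (by norm_num) (by simp) (by intro s; simp)
    (by intro s _; simp) x hx
  have e : ((lst 1 0 x).map (fun p => p.1 * dl p.2)).sum = 0 := by
    simp [lst, dl]
  rw [e, sub_zero] at h
  exact h

theorem base2 (x : ℂ × ℂ) (hx : ‖x‖ ≤ 1 / 100) :
    ‖(∫ t in (0 : ℝ)..(2 * Real.pi), Zj x 2 t)‖ ≤ 28 * (‖x.1‖ * ‖x.2‖) + 4900 * ‖x‖ ^ 3 := by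
  have h := base_bound 2 1 (fun _ => 0) (by norm_num) (by simp) (by intro s; push_cast; ring)
    (by intro s _; simp) x hx
  have e : ((lst 2 1 x).map (fun p => p.1 * dl p.2)).sum =
      (-4 * ((starRingEnd ℂ) x.1 * x.2)) * ((2 * Real.pi : ℝ) : ℂ) := by
    simp [lst, dl]; ring
  rw [e] at h
  have h2 : ‖(-4 * ((starRingEnd ℂ) x.1 * x.2)) * ((2 * Real.pi : ℝ) : ℂ)‖ ≤
      4 * (‖x.1‖ * ‖x.2‖) * 7 := by
    apply norm_mul_le4
    · simp only [norm_mul, norm_neg, Complex.norm_ofNat, RCLike.norm_conj]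
      exact le_rfl
    · rw [Complex.norm_real, Real.norm_eq_abs, abs_of_nonneg two_pi_nonneg]
      have := Real.pi_lt_d2
      linarith
  have h3 := norm_add_le ((∫ t in (0 : ℝ)..(2 * Real.pi), Zj x 2 t) -
    ((-4 * ((starRingEnd ℂ) x.1 * x.2)) * ((2 * Real.pi : ℝ) : ℂ)))
    ((-4 * ((starRingEnd ℂ) x.1 * x.2)) * ((2 * Real.pi : ℝ) : ℂ))
  rw [sub_add_cancel] at h3
  linarith

theorem base3 (x : ℂ × ℂ) (hx : ‖x‖ ≤ 1 / 100) :
    ‖(∫ t in (0 : ℝ)..(2 * Real.pi), Zj x 3 t) - 5 * ((Real.pi : ℂ) * x.1)‖ ≤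
      4900 * ‖x‖ ^ 3 := by
  have h := base_bound 3 3 (fun _ => 1) (by norm_num) (by norm_num)
    (by intro s; push_cast; ring) (by intro s _; simp) x hx
  have e : ((lst 3 3 x).map (fun p => p.1 * dl p.2)).sum = 5 * ((Real.pi : ℂ) * x.1) := by
    simp [lst, dl]; ring
  rw [e] at h
  exact h

theorem base5 (x : ℂ × ℂ) (hx : ‖x‖ ≤ 1 / 100) :
    ‖(∫ t in (0 : ℝ)..(2 * Real.pi), Zj x 5 t) - 7 * ((Real.pi : ℂ) * x.2)‖ ≤
      4900 * ‖x‖ ^ 3 := by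
  have h := base_bound 5 10 (fun s => 10 + 5 * s + s ^ 2) (by norm_num) (by norm_num)
    (by intro s; push_cast; ring) ?_ x hx
  · have e : ((lst 5 10 x).map (fun p => p.1 * dl p.2)).sum = 7 * ((Real.pi : ℂ) * x.2) := by
      simp [lst, dl]; ring
    rw [e] at h
    exact h
  · intro s hs
    have h1 := norm_add_le ((10 : ℂ) + 5 * s) (s ^ 2)
    have h2 := norm_add_le (10 : ℂ) (5 * s)
    rw [norm_mul, Complex.norm_ofNat, Complex.norm_ofNat] at h2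
    rw [norm_pow] at h1
    have h3 := norm_nonneg s
    have h4 : ‖s‖ ^ 2 ≤ 1 := by nlinarith
    linarith

/-- the second order remainder of the power -/
theorem pow_rem (n : ℕ) (w : ℝ) (hw : |w| ≤ 1 / 10) :
    |(1 + w) ^ n - 1 - n * w| ≤ 3 ^ n * w ^ 2 := by
  induction n with
  | zero => simp; positivity
  | succ n ih =>
    have e : (1 + w) ^ (n + 1) - 1 - ((n + 1 : ℕ) : ℝ) * w =
        (1 + w) * ((1 + w) ^ n - 1 - n * w) + n * w ^ 2 := by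
      push_cast; ring
    rw [e]
    have hn : (n : ℝ) ≤ 3 ^ n := by
      have h : n < 3 ^ n := Nat.lt_pow_self (by norm_num)
      exact_mod_cast h.le
    have hw2 := sq_nonneg w
    have h1 : |1 + w| ≤ 2 := by
      rw [abs_le] at *
      constructor <;> linarith [hw.1, hw.2]
    have h2 : |(1 + w) * ((1 + w) ^ n - 1 - n * w)| ≤ 2 * (3 ^ n * w ^ 2) := by
      rw [abs_mul]
      exact mul_le_mul h1 ih (abs_nonneg _) (by norm_num)
    have h3 : |(n : ℝ) * w ^ 2| ≤ 3 ^ n * w ^ 2 := by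
      rw [abs_of_nonneg (by positivity)]
      exact mul_le_mul_of_nonneg_right hn hw2
    have h4 := abs_add_le ((1 + w) * ((1 + w) ^ n - 1 - n * w)) ((n : ℝ) * w ^ 2)
    have h5 : (3 : ℝ) ^ (n + 1) * w ^ 2 = 2 * (3 ^ n * w ^ 2) + 3 ^ n * w ^ 2 := by
      rw [pow_succ (3 : ℝ) n]; ring
    rw [h5]
    linarith

theorem norm_Zj_sub (x : ℂ × ℂ) (hx : ‖x‖ ≤ 1 / 100) (j : ℕ) (hj : j ≤ 5) (t : ℝ) :
    ‖Zj x j t - ee ((j : ℝ) * t)‖ ≤ 1100 * ‖x‖ := by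
  have n0 := norm_nonneg x
  have key : ∀ j : ℕ, ‖zh x t ^ j - ee ((j : ℝ) * t)‖ ≤ (2 ^ (j + 1) - 2) * ‖x‖ ∧
      ‖zh x t ^ j‖ ≤ 2 ^ j := by
    intro j
    have hz := norm_zh_le x t
    have hz2 := zh_sub_ee x t
    induction j with
    | zero => simp [ee_zero]
    | succ j ih =>
      have e : ee (((j + 1 : ℕ) : ℝ) * t) = ee ((j : ℝ) * t) * ee t := by
        rw [← ee_add]; congr 1; push_cast; ring
      have e2 : zh x t ^ (j + 1) - ee (((j + 1 : ℕ) : ℝ) * t) =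
          zh x t ^ j * (zh x t - ee t) + (zh x t ^ j - ee ((j : ℝ) * t)) * ee t := by
        rw [e]; ring
      have hz3 : ‖zh x t‖ ≤ 2 := by linarith
      constructor
      · rw [e2]
        have h1 : ‖zh x t ^ j * (zh x t - ee t)‖ ≤ 2 ^ j * (2 * ‖x‖) := norm_mul_le4 ih.2 hz2
        have h2 : ‖(zh x t ^ j - ee ((j : ℝ) * t)) * ee t‖ ≤ (2 ^ (j + 1) - 2) * ‖x‖ := by
          rw [norm_mul, norm_ee, mul_one]; exact ih.1
        have h3 := norm_add_le (zh x t ^ j * (zh x t - ee t))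
          ((zh x t ^ j - ee ((j : ℝ) * t)) * ee t)
        have h4 : (2 : ℝ) ^ (j + 1 + 1) = 2 ^ (j + 1) + 2 ^ j * 2 := by ring
        rw [h4]
        linarith
      · rw [pow_succ, pow_succ]
        exact norm_mul_le4 ih.2 hz3
  obtain ⟨h1, h2⟩ := key j
  have h3 : ‖((h0 (rot t x) - 1 : ℝ) : ℂ)‖ ≤ 30 * ‖x‖ := by
    rw [Complex.norm_real, Real.norm_eq_abs]
    have := abs_h0_sub (rot t x) (by rw [norm_rot]; linarith)
    rwa [norm_rot] at this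
  have e : Zj x j t - ee ((j : ℝ) * t) =
      ((h0 (rot t x) - 1 : ℝ) : ℂ) * zh x t ^ j + (zh x t ^ j - ee ((j : ℝ) * t)) := by
    unfold Zj; push_cast; ring
  have hp : (2 : ℝ) ^ j ≤ 2 ^ 5 := pow_le_pow_right₀ (by norm_num) hj
  have hp2 : (2 : ℝ) ^ (j + 1) ≤ 2 ^ 6 := pow_le_pow_right₀ (by norm_num) (by omega)
  have h4 : ‖zh x t ^ j‖ ≤ 32 := by linarith
  have h5 := norm_mul_le4 h3 h4
  have h6 : (2 ^ (j + 1) - 2) * ‖x‖ ≤ 62 * ‖x‖ :=
    mul_le_mul_of_nonneg_right (by linarith) n0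
  rw [e]
  refine (norm_add_le _ _).trans ?_
  linarith

theorem norm_Zj (x : ℂ × ℂ) (hx : ‖x‖ ≤ 1 / 100) (j : ℕ) (hj : j ≤ 5) (t : ℝ) :
    ‖Zj x j t‖ ≤ 12 := by
  have h := norm_Zj_sub x hx j hj t
  have h2 := norm_add_le (Zj x j t - ee ((j : ℝ) * t)) (ee ((j : ℝ) * t))
  rw [sub_add_cancel, norm_ee] at h2
  linarith

/-- POL and SUB combined -/
theorem mom (h₁ : StPol) (h₂ : StSub) (K : Set ℂ) (x : ℂ × ℂ) (lam : ℝ) (w : ℝ → ℝ)
    (hK : IsBody K) (hb : closedBall 0 (1 / 2) ⊆ K) (hx : ‖x‖ ≤ 1 / 100)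
    (hw : ∀ t, 1 + w t = lam * (gauge K (zh x t))⁻¹) (j : ℕ) :
    ((j : ℂ) + 2) * ((lam : ℂ) ^ (j + 2) * ∫ z in K, z ^ j) =
      ∫ t in (0 : ℝ)..(2 * Real.pi), (((1 + w t) ^ (j + 2) : ℝ) : ℂ) * Zj x j t := by
  rw [h₁ K j hK hb, h₂ K x j hK hb (by linarith)]
  have hj : (j : ℂ) + 2 ≠ 0 := by
    have : ((j : ℂ) + 2) = ((j + 2 : ℕ) : ℂ) := by push_cast; ring
    rw [this]
    exact Nat.cast_ne_zero.2 (by omega)
  have e : (fun t : ℝ => (((1 + w t) ^ (j + 2) : ℝ) : ℂ) * Zj x j t) =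
      fun t : ℝ => (lam : ℂ) ^ (j + 2) *
        ((((gauge K (zh x t))⁻¹ ^ (j + 2) * h0 (rot t x) : ℝ) : ℂ) * zh x t ^ j) := by
    funext t
    rw [hw t]
    unfold Zj
    push_cast
    ring
  rw [e, intervalIntegral.integral_const_mul]
  field_simp

/-- the Fourier integral with the positive sign -/
noncomputable def Wj (w : ℝ → ℝ) (j : ℕ) : ℂ :=
  ∫ t in (0 : ℝ)..(2 * Real.pi), (w t : ℂ) * ee ((j : ℝ) * t)

theorem norm_wf (w : ℝ → ℝ) (j : ℕ) : ‖wf w (j : ℤ)‖ = ‖Wj w j‖ := by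
  have h : wf w (j : ℤ) = (starRingEnd ℂ) (Wj w j) := by
    unfold wf Wj
    rw [← intervalIntegral.intervalIntegral_conj]
    congr 1
    funext t
    rw [map_mul, Complex.conj_ofReal, ← ee_neg]
    congr 2
    push_cast
    ring
  rw [h, RCLike.norm_conj]

/-- the basic linearisation -/
theorem lin_bound (h₁ : StPol) (h₂ : StSub) (K : Set ℂ) (x : ℂ × ℂ) (lam : ℝ) (w : ℝ → ℝ)
    (hK : IsBody K) (hb : closedBall 0 (1 / 2) ⊆ K) (hx : ‖x‖ ≤ 1 / 100)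
    (hw : ∀ t, 1 + w t = lam * (gauge K (zh x t))⁻¹) (hwc : Continuous w)
    (hwb : ∀ t, |w t| ≤ 1 / 10) (j : ℕ) (hj : j ≤ 5) :
    ‖(((j : ℂ) + 2) * ((lam : ℂ) ^ (j + 2) * ∫ z in K, z ^ j)
      - ∫ t in (0 : ℝ)..(2 * Real.pi), Zj x j t) - ((j : ℂ) + 2) * Wj w j‖ ≤
      26244 * q2 w + 7700 * (‖x‖ * n1 w) := by
  have hcw : Continuous (fun t => (w t : ℂ)) := Complex.continuous_ofReal.comp hwc
  have hZc := continuous_Zj x j
  have hec : Continuous (fun t : ℝ => ee ((j : ℝ) * t)) := by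
    have := continuous_ee
    fun_prop
  have hc1 : Continuous (fun t => (((1 + w t) ^ (j + 2) : ℝ) : ℂ) * Zj x j t) := by
    apply Continuous.mul _ hZc
    exact Complex.continuous_ofReal.comp (by fun_prop)
  have hc2 : Continuous (fun t => ((j : ℂ) + 2) * ((w t : ℂ) * ee ((j : ℝ) * t))) :=
    continuous_const.mul (hcw.mul hec)
  rw [mom h₁ h₂ K x lam w hK hb hx hw j]
  unfold Wj
  rw [← intervalIntegral.integral_const_mul,
    ← intervalIntegral.integral_sub (hc1.intervalIntegrable _ _) (hZc.intervalIntegrable _ _),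
    ← intervalIntegral.integral_sub
      (f := fun t => (((1 + w t) ^ (j + 2) : ℝ) : ℂ) * Zj x j t - Zj x j t)
      ((hc1.sub hZc).intervalIntegrable _ _) (hc2.intervalIntegrable _ _)]
  have hq : 26244 * q2 w + 7700 * (‖x‖ * n1 w) =
      ∫ t in (0 : ℝ)..(2 * Real.pi), (26244 * w t ^ 2 + 7700 * ‖x‖ * |w t|) := by
    rw [intervalIntegral.integral_add, intervalIntegral.integral_const_mul,
      intervalIntegral.integral_const_mul]
    · unfold q2 n1; ring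
    · exact (by fun_prop : Continuous (fun t => 26244 * w t ^ 2)).intervalIntegrable _ _
    · exact (by fun_prop : Continuous (fun t => 7700 * ‖x‖ * |w t|)).intervalIntegrable _ _
  rw [hq]
  apply int_bound2
  · fun_prop
  intro t
  have e : (((1 + w t) ^ (j + 2) : ℝ) : ℂ) * Zj x j t - Zj x j t -
      ((j : ℂ) + 2) * ((w t : ℂ) * ee ((j : ℝ) * t)) =
      (((1 + w t) ^ (j + 2) - 1 - ((j + 2 : ℕ) : ℝ) * w t : ℝ) : ℂ) * Zj x j t +
        (((((j + 2 : ℕ) : ℝ)) * w t : ℝ) : ℂ) * (Zj x j t - ee ((j : ℝ) * t)) := by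
    push_cast
    ring
  rw [e]
  have a1 : ‖(((1 + w t) ^ (j + 2) - 1 - ((j + 2 : ℕ) : ℝ) * w t : ℝ) : ℂ)‖ ≤
      2187 * w t ^ 2 := by
    rw [Complex.norm_real, Real.norm_eq_abs]
    refine (pow_rem (j + 2) (w t) (hwb t)).trans ?_
    apply mul_le_mul_of_nonneg_right _ (sq_nonneg _)
    calc (3 : ℝ) ^ (j + 2) ≤ 3 ^ 7 := pow_le_pow_right₀ (by norm_num) (by omega)
      _ = 2187 := by norm_num
  have a2 : ‖(((((j + 2 : ℕ) : ℝ)) * w t : ℝ) : ℂ)‖ ≤ 7 * |w t| := by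
    rw [Complex.norm_real, Real.norm_eq_abs, abs_mul]
    apply mul_le_mul_of_nonneg_right _ (abs_nonneg _)
    rw [abs_of_nonneg (by positivity)]
    exact_mod_cast (by omega : j + 2 ≤ 7)
  have a3 := norm_mul_le4 a1 (norm_Zj x hx j hj t)
  have a4 := norm_mul_le4 a2 (norm_Zj_sub x hx j hj t)
  refine (norm_add_le _ _).trans ?_
  linarith

/-- a bound for `‖a‖` when `k a` is close to `b` -/
theorem fin_bound {k : ℝ} (hk : 1 ≤ k) {a b : ℂ} {B : ℝ} (h : ‖b - (k : ℂ) * a‖ ≤ B) :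
    ‖a‖ ≤ ‖b‖ + B := by
  have h1 := norm_add_le b (-(b - (k : ℂ) * a))
  have e : b + -(b - (k : ℂ) * a) = (k : ℂ) * a := by ring
  rw [e, norm_neg, norm_mul, Complex.norm_real, Real.norm_eq_abs, abs_of_nonneg (by linarith)] at h1
  have := norm_nonneg a
  nlinarith

theorem hSMM (h₁ : StPol) (h₂ : StSub) : StSmm := by
  refine ⟨10 ^ 8, 1 / 100, by norm_num, by norm_num, ?_⟩
  intro K x lam w hK hb hx hA hM1 hM2 hM3 hM5 hlam hwc hw hwb hw0
  have L := fun j hj => lin_bound h₁ h₂ K x lam w hK hb hx hw hwc hwb j hj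
  set N := n1 w with hN
  set S := q2 w with hS
  set X := ‖x‖ with hX
  have X0 : 0 ≤ X := norm_nonneg x
  have N0 : 0 ≤ N := by
    rw [hN]; unfold n1
    exact intervalIntegral.integral_nonneg two_pi_nonneg (fun t _ => abs_nonneg _)
  have S0 : 0 ≤ S := by
    rw [hS]; unfold q2
    exact intervalIntegral.integral_nonneg two_pi_nonneg (fun t _ => sq_nonneg _)
  have XN : 0 ≤ X * N := mul_nonneg X0 N0
  have X3 : 0 ≤ X ^ 3 := by positivity
  have x1 : ‖x.1‖ ≤ X := fst_le x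
  have x2 : ‖x.2‖ ≤ X := snd_le x
  have x12 : 0 ≤ ‖x.1‖ * ‖x.2‖ := by positivity
  obtain ⟨hl1, hl2⟩ := abs_le.1 hlam
  -- the case j = 0
  have hlam1 : |lam - 1| ≤ 30000 * (X ^ 2 + X * N + S) := by
    have l0 := L 0 (by norm_num)
    have b0 := base0 x hx
    rw [← hX] at b0
    have hW0 : Wj w 0 = 0 := by
      unfold Wj
      have : (fun t : ℝ => (w t : ℂ) * ee (((0 : ℕ) : ℝ) * t)) = fun t : ℝ => ((w t : ℝ) : ℂ) := by
        funext t; simp [ee_zero]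
      rw [this, intervalIntegral.integral_ofReal, hw0]
      simp
    have hM0 : ∫ z in K, z ^ 0 = ((Real.pi : ℝ) : ℂ) := by
      simp only [pow_zero]
      rw [MeasureTheory.setIntegral_const]
      have : (volume K).toReal = Real.pi := hA
      simp [Measure.real, this]
    rw [hW0, hM0] at l0
    simp only [Nat.cast_zero, zero_add, mul_zero, sub_zero] at l0
    have h3 := norm_add_le (2 * ((lam : ℂ) ^ 2 * ((Real.pi : ℝ) : ℂ))
      - ∫ t in (0 : ℝ)..(2 * Real.pi), Zj x 0 t)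
      ((∫ t in (0 : ℝ)..(2 * Real.pi), Zj x 0 t) - ((2 * Real.pi : ℝ) : ℂ))
    have e : (2 * ((lam : ℂ) ^ 2 * ((Real.pi : ℝ) : ℂ))
      - ∫ t in (0 : ℝ)..(2 * Real.pi), Zj x 0 t) +
      ((∫ t in (0 : ℝ)..(2 * Real.pi), Zj x 0 t) - ((2 * Real.pi : ℝ) : ℂ)) =
        ((2 * Real.pi * ((lam + 1) * (lam - 1)) : ℝ) : ℂ) := by
      push_cast; ring
    rw [e, Complex.norm_real, Real.norm_eq_abs, abs_mul, abs_of_nonneg two_pi_nonneg, abs_mul,
      abs_of_nonneg (by linarith : (0 : ℝ) ≤ lam + 1)] at h3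
    have h4 : |lam - 1| ≤ 2 * Real.pi * ((lam + 1) * |lam - 1|) := by
      have a0 := abs_nonneg (lam - 1)
      have a1 : |lam - 1| ≤ (lam + 1) * |lam - 1| := by nlinarith
      have a2 := Real.pi_gt_three
      nlinarith
    have X2 : 0 ≤ X ^ 2 := by positivity
    linarith
  have hXl : X * |lam - 1| ≤ 30000 * (X ^ 3 + X * N + S) := by
    have h := mul_le_mul_of_nonneg_left hlam1 X0
    have h2 : X * (30000 * (X ^ 2 + X * N + S)) ≤ 30000 * (X ^ 3 + X * N + S) := by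
      have a1 : X * (X * N) ≤ X * N := by nlinarith
      have a2 : X * S ≤ S := by nlinarith
      nlinarith
    linarith
  have hp5 : |lam ^ 5 - 1| ≤ 20 * |lam - 1| := by
    have e : lam ^ 5 - 1 = (lam ^ 4 + lam ^ 3 + lam ^ 2 + lam + 1) * (lam - 1) := by ring
    have l0 : 0 ≤ lam := by linarith
    have l1 : lam ≤ 11 / 10 := by linarith
    rw [e, abs_mul]
    apply mul_le_mul_of_nonneg_right _ (abs_nonneg _)
    rw [abs_of_nonneg (by positivity)]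
    have p2 : lam ^ 2 ≤ (11 / 10) ^ 2 := by gcongr
    have p3 : lam ^ 3 ≤ (11 / 10) ^ 3 := by gcongr
    have p4 : lam ^ 4 ≤ (11 / 10) ^ 4 := by gcongr
    norm_num at p2 p3 p4
    linarith
  have hp7 : |lam ^ 7 - 1| ≤ 20 * |lam - 1| := by
    have e : lam ^ 7 - 1 =
        (lam ^ 6 + lam ^ 5 + lam ^ 4 + lam ^ 3 + lam ^ 2 + lam + 1) * (lam - 1) := by ring
    have l0 : 0 ≤ lam := by linarith
    have l1 : lam ≤ 11 / 10 := by linarith
    rw [e, abs_mul]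
    apply mul_le_mul_of_nonneg_right _ (abs_nonneg _)
    rw [abs_of_nonneg (by positivity)]
    have p2 : lam ^ 2 ≤ (11 / 10) ^ 2 := by gcongr
    have p3 : lam ^ 3 ≤ (11 / 10) ^ 3 := by gcongr
    have p4 : lam ^ 4 ≤ (11 / 10) ^ 4 := by gcongr
    have p5 : lam ^ 5 ≤ (11 / 10) ^ 5 := by gcongr
    have p6 : lam ^ 6 ≤ (11 / 10) ^ 6 := by gcongr
    norm_num at p2 p3 p4 p5 p6
    linarith
  refine ⟨?_, ?_, ?_, ?_⟩
  · -- j = 1
    have l := L 1 (by norm_num)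
    have b := base1 x hx
    rw [← hX] at b
    have e : ∫ z in K, z ^ 1 = 0 := by simpa using hM1
    rw [e] at l
    have l' : ‖(-∫ t in (0 : ℝ)..(2 * Real.pi), Zj x 1 t) - ((3 : ℝ) : ℂ) * Wj w 1‖ ≤
        26244 * S + 7700 * (X * N) := by
      convert l using 3
      · ring
      · push_cast; ring
    have h := fin_bound (by norm_num) l'
    rw [norm_neg] at h
    have hn := norm_wf w 1
    rw [Nat.cast_one] at hn
    rw [hn]
    linarith
  · -- j = 2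
    have l := L 2 (by norm_num)
    have b := base2 x hx
    rw [← hX] at b
    rw [hM2] at l
    have l' : ‖(-∫ t in (0 : ℝ)..(2 * Real.pi), Zj x 2 t) - ((4 : ℝ) : ℂ) * Wj w 2‖ ≤
        26244 * S + 7700 * (X * N) := by
      convert l using 3
      · ring
      · push_cast; ring
    have h := fin_bound (by norm_num) l'
    rw [norm_neg] at h
    have hn := norm_wf w 2
    rw [Nat.cast_ofNat] at hn
    rw [hn]
    linarith
  · -- j = 3
    have l := L 3 (by norm_num)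
    have b := base3 x hx
    rw [← hX] at b
    rw [hM3] at l
    have l' : ‖(((5 * (lam ^ 5 - 1) : ℝ) : ℂ) * ((Real.pi : ℂ) * x.1) -
        ((∫ t in (0 : ℝ)..(2 * Real.pi), Zj x 3 t) - 5 * ((Real.pi : ℂ) * x.1)))
          - ((5 : ℝ) : ℂ) * Wj w 3‖ ≤
        26244 * S + 7700 * (X * N) := by
      convert l using 3
      · push_cast; ring
      · push_cast; ring
    have h := fin_bound (by norm_num) l'
    have h2 := norm_sub_le (((5 * (lam ^ 5 - 1) : ℝ) : ℂ) * ((Real.pi : ℂ) * x.1))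
      ((∫ t in (0 : ℝ)..(2 * Real.pi), Zj x 3 t) - 5 * ((Real.pi : ℂ) * x.1))
    have h3 : ‖((5 * (lam ^ 5 - 1) : ℝ) : ℂ) * ((Real.pi : ℂ) * x.1)‖ ≤
        5 * (20 * |lam - 1|) * (4 * X) := by
      apply norm_mul_le4
      · rw [Complex.norm_real, Real.norm_eq_abs, abs_mul, abs_of_nonneg (by norm_num : (0 : ℝ) ≤ 5)]
        linarith
      · apply norm_mul_le4 _ x1
        rw [Complex.norm_real, Real.norm_eq_abs, abs_of_nonneg Real.pi_nonneg]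
        exact Real.pi_le_four
    have hn := norm_wf w 3
    rw [Nat.cast_ofNat] at hn
    rw [hn]
    have h4 : 5 * (20 * |lam - 1|) * (4 * X) = 400 * (X * |lam - 1|) := by ring
    linarith
  · -- j = 5
    have l := L 5 (by norm_num)
    have b := base5 x hx
    rw [← hX] at b
    rw [hM5] at l
    have l' : ‖(((7 * (lam ^ 7 - 1) : ℝ) : ℂ) * ((Real.pi : ℂ) * x.2) -
        ((∫ t in (0 : ℝ)..(2 * Real.pi), Zj x 5 t) - 7 * ((Real.pi : ℂ) * x.2)))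
          - ((7 : ℝ) : ℂ) * Wj w 5‖ ≤
        26244 * S + 7700 * (X * N) := by
      convert l using 3
      · push_cast; ring
      · push_cast; ring
    have h := fin_bound (by norm_num) l'
    have h2 := norm_sub_le (((7 * (lam ^ 7 - 1) : ℝ) : ℂ) * ((Real.pi : ℂ) * x.2))
      ((∫ t in (0 : ℝ)..(2 * Real.pi), Zj x 5 t) - 7 * ((Real.pi : ℂ) * x.2))
    have h3 : ‖((7 * (lam ^ 7 - 1) : ℝ) : ℂ) * ((Real.pi : ℂ) * x.2)‖ ≤
        7 * (20 * |lam - 1|) * (4 * X) := by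
      apply norm_mul_le4
      · rw [Complex.norm_real, Real.norm_eq_abs, abs_mul, abs_of_nonneg (by norm_num : (0 : ℝ) ≤ 7)]
        linarith
      · apply norm_mul_le4 _ x2
        rw [Complex.norm_real, Real.norm_eq_abs, abs_of_nonneg Real.pi_nonneg]
        exact Real.pi_le_four
    have hn := norm_wf w 5
    rw [Nat.cast_ofNat] at hn
    rw [hn]
    have h4 : 7 * (20 * |lam - 1|) * (4 * X) = 560 * (X * |lam - 1|) := by ring
    linarith

end Pool.Agent.Helper63.LT
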